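import Pool.Agent.Y511.FQ.Gen
import Pool.Agent.Y511.FQ.Thick

set_option autoImplicit false

/-!
# Oriented manifolds which are not flow quotients, in every dimension from six on

The definitions `IsFlow`, `IsQuotientOfFlow`, `RealizedAsQuotient` are in the starting file
`Pool.Agent.H289R3.FQ.Defs`.
-/

open Set Topology
open Pool.Agent.H289R3.FQ (RealizedAsQuotient)

namespace Pool.Agent.Results.MP_59a510_gt.EveryDimensionFromSix

/-- **Negative answer to Q1 in every dimension `n ≥ 6`, and a topological obstruction.**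

(1) Let `M` be an open subset of a finite-dimensional normed space `F`, of dimension `n`. If there
are continuous maps `e` from the torus `T⁵ = (ℝ/ℤ)⁵` to `M` and `p` from `M` to `T⁵` with
`p ∘ e = id`, then `M` is not the quotient of any smooth complete flow on `(ℝ² ∖ S) × ℝ^(n-1)`, for
any discrete closed subset `S` of the plane.

(2) For every `n ≥ 6` there is a connected open subset of `ℝⁿ` (hence a connected oriented
`n`-manifold) which is not such a quotient. -/
theorem result :
    (∀ (F : Type) [NormedAddCommGroup F] [NormedSpace ℝ F] [FiniteDimensional ℝ F] (M : Set F)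
      (e : (Fin 5 → AddCircle (1 : ℝ)) → F) (p : F → (Fin 5 → AddCircle (1 : ℝ))),
      IsOpen M → Continuous e → (∀ y, e y ∈ M) → ContinuousOn p M → (∀ y, p (e y) = y) →
        ¬ RealizedAsQuotient (Module.finrank ℝ F) M) ∧
    (∀ n : ℕ, 6 ≤ n → ∃ M : Set (EuclideanSpace ℝ (Fin n)),
      IsOpen M ∧ IsConnected M ∧ ¬ RealizedAsQuotient n M) := by
  refine ⟨fun F _ _ _ M e p hM he heM hp hpe =>
    Pool.Agent.Y511.FQ.not_realized_gen rfl hM he heM hp hpe, fun n hn => ?_⟩
  obtain ⟨V, i1, i2, i3, hd, M, e, p, c, hM, he, heM, hp, hpe, -, -⟩ :=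
    Pool.Agent.Y511.FQ.exists_thick (n - 6) 5
  have hfin : Module.finrank ℝ (V × ℝ) = Module.finrank ℝ (EuclideanSpace ℝ (Fin n)) := by
    rw [Module.finrank_prod, hd, Module.finrank_self, finrank_euclideanSpace_fin]
    omega
  let L : (V × ℝ) ≃L[ℝ] EuclideanSpace ℝ (Fin n) := ContinuousLinearEquiv.ofFinrankEq hfin
  let M' : Set (EuclideanSpace ℝ (Fin n)) := L.symm ⁻¹' M
  have hM' : IsOpen M' := hM.preimage L.symm.continuous
  let e' : (Fin 5 → AddCircle (1 : ℝ)) → EuclideanSpace ℝ (Fin n) := fun y => L (e y)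
  have he' : Continuous e' := L.continuous.comp he
  have heM' : ∀ y, e' y ∈ M' := by
    intro y
    change L.symm (L (e y)) ∈ M
    rw [ContinuousLinearEquiv.symm_apply_apply]
    exact heM y
  let M₁ : Set (EuclideanSpace ℝ (Fin n)) := connectedComponentIn M' (e' 0)
  have hsub : M₁ ⊆ M' := connectedComponentIn_subset _ _
  refine ⟨M₁, hM'.connectedComponentIn, isConnected_connectedComponentIn_iff.2 (heM' 0), ?_⟩
  refine Pool.Agent.Y511.FQ.not_realized_gen (finrank_euclideanSpace_fin) hM'.connectedComponentIn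
    he' (fun y => ?_) (p := fun m => p (L.symm m)) ?_ ?_
  · have h1 : range e' ⊆ M₁ :=
      (isPreconnected_range he').subset_connectedComponentIn ⟨0, rfl⟩
        (by rintro _ ⟨z, rfl⟩; exact heM' z)
    exact h1 ⟨y, rfl⟩
  · exact hp.comp L.symm.continuous.continuousOn (fun m hm => hsub hm)
  · intro y
    change p (L.symm (L (e y))) = y
    rw [ContinuousLinearEquiv.symm_apply_apply, hpe]

end Pool.Agent.Results.MP_59a510_gt.EveryDimensionFromSix
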